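import Mathlib

section

/-! Affine maps of the plane given by six coefficients. -/

namespace Pool.Agent.MP_55cbcc_co

/-- An affine map `(x, y) ↦ (c1 + a11 x + a12 y, c2 + a21 x + a22 y)`. -/
@[ext] structure Aff (R : Type) : Type where
  c1 : R
  c2 : R
  a11 : R
  a12 : R
  a21 : R
  a22 : R
deriving DecidableEq

namespace Aff

section Ring

variable {R : Type} [CommRing R]

/-- Composition. -/
def comp (f g : Aff R) : Aff R where
  c1 := f.c1 + f.a11 * g.c1 + f.a12 * g.c2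
  c2 := f.c2 + f.a21 * g.c1 + f.a22 * g.c2
  a11 := f.a11 * g.a11 + f.a12 * g.a21
  a12 := f.a11 * g.a12 + f.a12 * g.a22
  a21 := f.a21 * g.a11 + f.a22 * g.a21
  a22 := f.a21 * g.a12 + f.a22 * g.a22

/-- The identity. -/
def one : Aff R := ⟨0, 0, 1, 0, 0, 1⟩

/-- Value at a point. -/
def pev (f : Aff R) (p : R × R) : R × R :=
  (f.c1 + f.a11 * p.1 + f.a12 * p.2, f.c2 + f.a21 * p.1 + f.a22 * p.2)

/-- Inverse of a similarity whose ratio squared is `1 / r`. -/
def sinv (r : R) (f : Aff R) : Aff R where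
  c1 := -(r * (f.a11 * f.c1 + f.a21 * f.c2))
  c2 := -(r * (f.a12 * f.c1 + f.a22 * f.c2))
  a11 := r * f.a11
  a12 := r * f.a21
  a21 := r * f.a12
  a22 := r * f.a22

/-- The columns are orthogonal of squared length `r`. -/
def Sim (r : R) (f : Aff R) : Prop :=
  f.a11 ^ 2 + f.a21 ^ 2 = r ∧ f.a12 ^ 2 + f.a22 ^ 2 = r ∧ f.a11 * f.a12 + f.a21 * f.a22 = 0

theorem comp_assoc (f g h : Aff R) : (f.comp g).comp h = f.comp (g.comp h) := by
  ext <;> simp only [comp] <;> ring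

@[simp] theorem comp_one (f : Aff R) : f.comp one = f := by
  ext <;> simp [comp, one]

theorem Sim.comp {r r' : R} {f g : Aff R} (hf : f.Sim r) (hg : g.Sim r') :
    (f.comp g).Sim (r * r') := by
  obtain ⟨h1, h2, h3⟩ := hf
  obtain ⟨h4, h5, h6⟩ := hg
  refine ⟨?_, ?_, ?_⟩ <;> simp only [Aff.comp]
  · linear_combination g.a11 ^ 2 * h1 + g.a21 ^ 2 * h2 + 2 * g.a11 * g.a21 * h3 + r * h4
  · linear_combination g.a12 ^ 2 * h1 + g.a22 ^ 2 * h2 + 2 * g.a12 * g.a22 * h3 + r * h5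
  · linear_combination g.a11 * g.a12 * h1 + g.a21 * g.a22 * h2 +
      (g.a11 * g.a22 + g.a21 * g.a12) * h3 + r * h6

end Ring

instance (r : ℚ) (f : Aff ℚ) : Decidable (f.Sim r) := by unfold Sim; infer_instance

/-- Real coefficients from rational ones. -/
def cast (f : Aff ℚ) : Aff ℝ := ⟨f.c1, f.c2, f.a11, f.a12, f.a21, f.a22⟩

theorem cast_comp (f g : Aff ℚ) : (f.comp g).cast = f.cast.comp g.cast := by
  ext <;> simp [cast, comp]

@[simp] theorem cast_one : (one : Aff ℚ).cast = one := by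
  ext <;> simp [cast, one]

theorem Sim.cast {r : ℚ} {f : Aff ℚ} (h : f.Sim r) : f.cast.Sim (r : ℝ) := by
  obtain ⟨h1, h2, h3⟩ := h
  refine ⟨?_, ?_, ?_⟩ <;> simp only [Aff.cast]
  · exact_mod_cast h1
  · exact_mod_cast h2
  · exact_mod_cast h3

/-- The map on the complex plane. -/
def ev (f : Aff ℝ) (z : ℂ) : ℂ :=
  ⟨f.c1 + f.a11 * z.re + f.a12 * z.im, f.c2 + f.a21 * z.re + f.a22 * z.im⟩

@[simp] theorem ev_re (f : Aff ℝ) (z : ℂ) : (f.ev z).re = f.c1 + f.a11 * z.re + f.a12 * z.im := rfl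
@[simp] theorem ev_im (f : Aff ℝ) (z : ℂ) : (f.ev z).im = f.c2 + f.a21 * z.re + f.a22 * z.im := rfl

theorem ev_comp (f g : Aff ℝ) (z : ℂ) : (f.comp g).ev z = f.ev (g.ev z) := by
  apply Complex.ext <;> simp [comp] <;> ring

@[simp] theorem ev_one (z : ℂ) : (one : Aff ℝ).ev z = z := by
  apply Complex.ext <;> simp [one]

theorem continuous_ev (f : Aff ℝ) : Continuous f.ev := by
  have : f.ev = fun z => ((f.c1 + f.a11 * z.re + f.a12 * z.im : ℝ) : ℂ) +
      ((f.c2 + f.a21 * z.re + f.a22 * z.im : ℝ) : ℂ) * Complex.I := by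
    funext z; apply Complex.ext <;> simp
  rw [this]
  fun_prop

theorem ev_lineMap (f : Aff ℝ) (a b : ℂ) (t : ℝ) :
    f.ev (a + t • (b - a)) = f.ev a + t • (f.ev b - f.ev a) := by
  apply Complex.ext <;> simp <;> ring

theorem Sim.normSq_sub {r : ℝ} {f : Aff ℝ} (h : f.Sim r) (z w : ℂ) :
    Complex.normSq (f.ev z - f.ev w) = r * Complex.normSq (z - w) := by
  obtain ⟨h1, h2, h3⟩ := h
  simp only [Complex.normSq_apply, Complex.sub_re, Complex.sub_im, ev_re, ev_im]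
  linear_combination (z.re - w.re) ^ 2 * h1 + (z.im - w.im) ^ 2 * h2 +
    2 * (z.re - w.re) * (z.im - w.im) * h3

theorem Sim.injective {r : ℝ} {f : Aff ℝ} (h : f.Sim r) (hr : r ≠ 0) : Function.Injective f.ev := by
  intro z w e
  have := h.normSq_sub z w
  rw [e, sub_self, map_zero] at this
  have h2 : Complex.normSq (z - w) = 0 := (mul_eq_zero.1 this.symm).resolve_left hr
  exact sub_eq_zero.1 (Complex.normSq_eq_zero.1 h2)

theorem Sim.norm_sub {f : Aff ℝ} (h : f.Sim 1) (z w : ℂ) : ‖f.ev z - f.ev w‖ = ‖z - w‖ := by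
  have := h.normSq_sub z w
  rw [one_mul, Complex.normSq_eq_norm_sq, Complex.normSq_eq_norm_sq] at this
  exact (sq_eq_sq₀ (norm_nonneg _) (norm_nonneg _)).1 this

theorem Sim.rows {f : Aff ℝ} (h : f.Sim 1) :
    f.a11 ^ 2 + f.a12 ^ 2 = 1 ∧ f.a21 ^ 2 + f.a22 ^ 2 = 1 ∧ f.a11 * f.a21 + f.a12 * f.a22 = 0 := by
  obtain ⟨h1, h2, h3⟩ := h
  have e1 : f.a22 = (f.a11 * f.a22 - f.a12 * f.a21) * f.a11 := by
    linear_combination (-f.a22) * h1 + f.a21 * h3
  have e2 : f.a12 = -((f.a11 * f.a22 - f.a12 * f.a21) * f.a21) := by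
    linear_combination (-f.a12) * h1 + f.a11 * h3
  have e3 : (f.a11 * f.a22 - f.a12 * f.a21) ^ 2 = 1 := by
    linear_combination (f.a12 ^ 2 + f.a22 ^ 2) * h1 + h2 - (f.a11 * f.a12 + f.a21 * f.a22) * h3
  generalize f.a11 * f.a22 - f.a12 * f.a21 = d at e1 e2 e3
  refine ⟨?_, ?_, ?_⟩
  · rw [e2]; linear_combination h1 + f.a21 ^ 2 * e3
  · rw [e1]; linear_combination h1 + f.a11 ^ 2 * e3
  · rw [e1, e2]; linear_combination (-(f.a11 * f.a21)) * e3

theorem Sim.ev_sinv {f : Aff ℝ} (h : f.Sim 1) (z : ℂ) : f.ev ((f.sinv 1).ev z) = z := by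
  obtain ⟨h1, h2, h3⟩ := h.rows
  apply Complex.ext <;> simp only [ev_re, ev_im, sinv]
  · linear_combination (z.re - f.c1) * h1 + (z.im - f.c2) * h3
  · linear_combination (z.im - f.c2) * h2 + (z.re - f.c1) * h3

theorem Sim.surjective {f : Aff ℝ} (h : f.Sim 1) : Function.Surjective f.ev :=
  fun z => ⟨_, h.ev_sinv z⟩

/-- The isometry of the plane given by an orthogonal affine map. -/
noncomputable def Sim.iso {f : Aff ℝ} (h : f.Sim 1) : ℂ ≃ᵢ ℂ where
  toEquiv := Equiv.ofBijective f.ev ⟨h.injective one_ne_zero, h.surjective⟩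
  isometry_toFun := Isometry.of_dist_eq fun z w => by
    simp only [dist_eq_norm]; exact h.norm_sub z w

@[simp] theorem Sim.coe_iso {f : Aff ℝ} (h : f.Sim 1) : ⇑h.iso = f.ev := rfl

end Aff

/-- A rational point as a complex number. -/
def cpt (p : ℚ × ℚ) : ℂ := ⟨p.1, p.2⟩

@[simp] theorem cpt_re (p : ℚ × ℚ) : (cpt p).re = p.1 := rfl
@[simp] theorem cpt_im (p : ℚ × ℚ) : (cpt p).im = p.2 := rfl

theorem ev_cast_cpt (f : Aff ℚ) (p : ℚ × ℚ) : f.cast.ev (cpt p) = cpt (f.pev p) := by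
  apply Complex.ext <;> simp [Aff.cast, Aff.pev]

theorem cpt_inj {p q : ℚ × ℚ} (h : cpt p = cpt q) : p = q := by
  have h1 := congrArg Complex.re h
  have h2 := congrArg Complex.im h
  simp only [cpt_re, cpt_im, Rat.cast_inj] at h1 h2
  exact Prod.ext h1 h2

end Pool.Agent.MP_55cbcc_co

end

section

/-! The finite data of the substitution and the finite checks on it. -/

namespace Pool.Agent.MP_55cbcc_co

open Aff

/-- Half turn about the midpoint of the hypotenuse. -/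
def rho : Aff ℚ := ⟨2, 1, -1, 0, 0, -1⟩
/-- Reflection in the hypotenuse. -/
def kap : Aff ℚ := ⟨4 / 5, 8 / 5, 3 / 5, -4 / 5, -4 / 5, -3 / 5⟩
/-- Reflection in the perpendicular bisector of the hypotenuse. -/
def mu0 : Aff ℚ := rho.comp kap
/-- The partner map: kite (`false`) or domino (`true`). -/
def tau : Bool → Aff ℚ
  | false => kap
  | true => rho
/-- From small coordinates to the triangle. -/
def theta : Aff ℚ := ⟨0, 1, 2 / 5, -1 / 5, -1 / 5, -2 / 5⟩
/-- Flip of the domino. -/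
def phi : Aff ℚ := ⟨2, 0, -1, 0, 0, 1⟩
/-- From small coordinates to the pair. -/
def Theta : Bool → Aff ℚ
  | false => theta
  | true => phi.comp theta
/-- The ten children in small coordinates. -/
def beta : Bool → Fin 10 → Aff ℚ
  | false => ![⟨1, 0, 0, -1, 1, 0⟩, ⟨1, 1, 1, 0, 0, 1⟩, ⟨3, 0, 1, 0, 0, 1⟩, ⟨1, 0, 1, 0, 0, 1⟩,
      ⟨3, 1, -1, 0, 0, -1⟩, ⟨1, 0, 0, -1, -1, 0⟩, ⟨1, -1, 1, 0, 0, -1⟩, ⟨3, 0, 1, 0, 0, -1⟩,
      ⟨3, 0, -1, 0, 0, -1⟩, ⟨1, -1, 1, 0, 0, 1⟩]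
  | true => ![⟨1, 0, 0, -1, 1, 0⟩, ⟨1, 1, 1, 0, 0, 1⟩, ⟨3, 0, 1, 0, 0, 1⟩, ⟨1, 0, 1, 0, 0, 1⟩,
      ⟨3, 1, -1, 0, 0, -1⟩, ⟨4, 0, 0, 1, -1, 0⟩, ⟨4, -1, -1, 0, 0, -1⟩, ⟨2, 0, -1, 0, 0, -1⟩,
      ⟨2, 0, 1, 0, 0, -1⟩, ⟨4, -1, -1, 0, 0, 1⟩]
/-- The ten children. -/
def alpha (k : Bool) (j : Fin 10) : Aff ℚ := (Theta k).comp (beta k j)
/-- The small triangles standing on the three unit edges. -/
def eta : Fin 3 → Aff ℚ :=
  ![theta.comp ⟨1, 0, 0, -1, 1, 0⟩, theta.comp ⟨1, 1, 1, 0, 0, 1⟩, theta.comp ⟨3, 0, 1, 0, 0, 1⟩]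
/-- A small triangle on a unit edge, in one of its two positions. -/
def etaP (e : Fin 3) : Bool → Aff ℚ
  | false => eta e
  | true => (eta e).comp mu0
/-- One of the two halves of a pair. -/
def half (k : Bool) : Bool → Aff ℚ
  | false => one
  | true => tau k
/-- The four marked boundary points. -/
def mk : Fin 4 → ℚ × ℚ := ![(0, 1 / 2), (1 / 2, 0), (3 / 2, 0), (1, 1 / 2)]
/-- The other end of the arc. -/
def opp : Fin 4 → Fin 4 := ![1, 0, 3, 2]
/-- The inflation, multiplication by `-2 + i`. -/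
def infl : Aff ℚ := ⟨0, 0, -2, -1, 1, -2⟩
/-- The first tile. -/
def dz : Aff ℚ := ⟨-6 / 5, -2 / 5, 1, 0, 0, 1⟩
/-- The vertices of the triangle. -/
def verts : List (ℚ × ℚ) := [(0, 0), (2, 0), (0, 1)]

/-- The image of the triangle lies outside one of the edge lines. -/
def Sep (g : Aff ℚ) : Prop :=
  (∀ v ∈ verts, (g.pev v).1 ≤ 0) ∨ (∀ v ∈ verts, (g.pev v).2 ≤ 0) ∨
    (∀ v ∈ verts, 2 ≤ (g.pev v).1 + 2 * (g.pev v).2)

instance (g : Aff ℚ) : Decidable (Sep g) := by unfold Sep; infer_instance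

/-- The image of the triangle lies in the triangle. -/
def AllIn (g : Aff ℚ) : Prop :=
  ∀ v ∈ verts, 0 ≤ (g.pev v).1 ∧ 0 ≤ (g.pev v).2 ∧ (g.pev v).1 + 2 * (g.pev v).2 ≤ 2

instance (g : Aff ℚ) : Decidable (AllIn g) := by unfold AllIn; infer_instance

/-- The image of the triangle lies in the rectangle. -/
def AllRect (g : Aff ℚ) : Prop :=
  ∀ v ∈ verts, 0 ≤ (g.pev v).1 ∧ 0 ≤ (g.pev v).2 ∧ (g.pev v).1 ≤ 2 ∧ (g.pev v).2 ≤ 1

instance (g : Aff ℚ) : Decidable (AllRect g) := by unfold AllRect; infer_instance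

theorem alpha_sim : ∀ k j, (alpha k j).Sim (1 / 5) := by decide +kernel
theorem tau_sim : ∀ k, (tau k).Sim 1 := by decide +kernel
theorem infl_sim : infl.Sim 5 := by decide +kernel
theorem dz_sim : dz.Sim 1 := by decide +kernel
theorem tau_tau : ∀ k, (tau k).comp (tau k) = one := by decide +kernel
theorem sinv_alpha : ∀ k j, ((alpha k j).sinv 5).comp (alpha k j) = one := by decide +kernel
theorem alpha_sep : ∀ k j j', j ≠ j' → Sep (((alpha k j).sinv 5).comp (alpha k j')) ∨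
    Sep (((alpha k j').sinv 5).comp (alpha k j)) := by decide +kernel
theorem alpha_sub : ∀ k j, AllIn (alpha k j) ∨ AllIn ((tau k).comp (alpha k j)) ∨
    (k = true ∧ AllRect (alpha k j)) := by decide +kernel
theorem edge_child : ∀ k h e, ∃ j p, alpha k j = (half k h).comp (etaP e p) := by decide +kernel
theorem child_kind : ∀ k j, (∃ j', (alpha k j).comp (tau true) = alpha k j') ∨
    ∃ h e p, alpha k j = (half k h).comp (etaP e p) := by decide +kernel
theorem sibling : ∀ k j e, ∃ j' e' k', j' ≠ j ∧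
    (alpha k j').comp (eta e') = ((alpha k j).comp (eta e)).comp (tau k') := by decide +kernel
theorem tau_mu : ∀ k, (tau k).comp mu0 = tau (!k) := by decide +kernel
theorem mu_tau : ∀ k, mu0.comp (tau k) = tau (!k) := by decide +kernel
theorem eta_mk : ∀ e p, (etaP e p).pev (mk 3) = mk e.castSucc := by decide +kernel
theorem tau_mk : ∀ k, (tau k).pev (mk 3) = mk 3 := by decide +kernel
theorem eta_mk' : ∀ e, (eta e).pev (mk 3) = mk e.castSucc := by decide +kernel
theorem dz_child3 : infl.comp (dz.comp (alpha true 3)) = dz := by decide +kernel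
theorem dz_child4 : infl.comp (dz.comp (alpha true 4)) = dz.comp (tau true) := by decide +kernel
theorem opp_opp : ∀ m, opp (opp m) = m := by decide
theorem mk_inj : ∀ m m', mk m = mk m' → m = m' := by decide +kernel
theorem opp_ne : ∀ m, opp m ≠ m := by decide

/-- The order in which the first ten tiles find their partners. -/
def rank : Fin 10 → ℕ := ![4, 1, 3, 0, 0, 5, 2, 2, 0, 0]

theorem base_chain : ∀ j, (∃ j', (alpha true j).comp (tau true) = alpha true j') ∨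
    ∃ h e p j' e' k', alpha true j = (half true h).comp (etaP e p) ∧ rank j' < rank j ∧
      (alpha true j').comp (eta e') =
        ((alpha true (if h then 4 else 3)).comp (eta e)).comp (tau k') := by decide +kernel

/-- The three strands through the ten children, in small coordinates. -/
def strandS : Bool → Fin 3 → List (ℚ × ℚ)
  | false => ![[(1 / 2, 1), (1, 3 / 2), (3 / 2, 1), (2, 1 / 2), (5 / 2, 0), (3, -1 / 2), (7 / 2, 0),
        (3, 1 / 2), (5 / 2, 1), (2, 3 / 2)],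
      [(1 / 2, -1), (1, -3 / 2), (3 / 2, -1), (1, -1 / 2), (1 / 2, 0), (1, 1 / 2), (3 / 2, 0),
        (2, -1 / 2), (5 / 2, -1), (2, -3 / 2)],
      [(4, 1 / 2), (9 / 2, 0), (4, -1 / 2)]]
  | true => ![[(4, 1 / 2), (9 / 2, 0), (4, -1 / 2), (7 / 2, -1), (4, -3 / 2), (9 / 2, -1)],
      [(1 / 2, 1), (1, 3 / 2), (3 / 2, 1), (2, 1 / 2), (5 / 2, 0), (2, -1 / 2), (3 / 2, 0),
        (1, 1 / 2), (1 / 2, 0), (1, -1 / 2)],
      [(2, 3 / 2), (5 / 2, 1), (3, 1 / 2), (7 / 2, 0), (3, -1 / 2), (5 / 2, -1), (3, -3 / 2)]]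

/-- The three strands. -/
def strand (k : Bool) (i : Fin 3) : List (ℚ × ℚ) := (strandS k i).map (Theta k).pev

/-- Two points are the ends of an arc of a child. -/
def Rm (k : Bool) (p q : ℚ × ℚ) : Prop :=
  ∃ j m, p = (alpha k j).pev (mk m) ∧ q = (alpha k j).pev (mk (opp m))

instance (k : Bool) (p q : ℚ × ℚ) : Decidable (Rm k p q) := by unfold Rm; infer_instance

theorem strand_chain : ∀ k i, List.IsChain (Rm k) (strand k i) := by decide +kernel
theorem strand_all : ∀ k j m, ∃ i, (alpha k j).pev (mk m) ∈ strand k i := by decide +kernel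
theorem strand_ends : ∀ k, mk 0 ∈ strand k 0 ∧ mk 1 ∈ strand k 0 ∧
    (tau k).pev (mk 0) ∈ strand k 1 ∧ (tau k).pev (mk 1) ∈ strand k 1 ∧
    mk 2 ∈ strand k 2 ∧ (tau k).pev (mk 2) ∈ strand k 2 := by decide +kernel

end Pool.Agent.MP_55cbcc_co

end

section

/-! Geometry of the model triangle. -/

namespace Pool.Agent.MP_55cbcc_co

open Aff

/-- The closed right triangle with legs 2 and 1. -/
def T0 : Set ℂ := {z | 0 ≤ z.re ∧ 0 ≤ z.im ∧ z.re + 2 * z.im ≤ 2}

/-- The open triangle. -/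
def O0 : Set ℂ := {z | 0 < z.re ∧ 0 < z.im ∧ z.re + 2 * z.im < 2}

theorem O0_sub : O0 ⊆ T0 := fun _ h => ⟨h.1.le, h.2.1.le, h.2.2.le⟩

theorem isOpen_O0 : IsOpen O0 := by
  unfold O0
  simp only [Set.ofPred_and]
  exact (isOpen_lt continuous_const Complex.continuous_re).inter
    ((isOpen_lt continuous_const Complex.continuous_im).inter
      (isOpen_lt (by fun_prop) continuous_const))

theorem isClosed_T0 : IsClosed T0 := by
  unfold T0
  simp only [Set.ofPred_and]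
  exact (isClosed_le continuous_const Complex.continuous_re).inter
    ((isClosed_le continuous_const Complex.continuous_im).inter
      (isClosed_le (by fun_prop) continuous_const))

theorem convex_T0 : Convex ℝ T0 := by
  rintro z ⟨h1, h2, h3⟩ w ⟨h4, h5, h6⟩ a b ha hb hab
  refine ⟨?_, ?_, ?_⟩ <;> simp <;> nlinarith

theorem norm_le_of_T0 {z : ℂ} (h : z ∈ T0) : ‖z‖ ≤ 3 := by
  obtain ⟨h1, h2, h3⟩ := h
  refine (Complex.norm_le_abs_re_add_abs_im z).trans ?_
  rw [abs_of_nonneg h1, abs_of_nonneg h2]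
  linarith

theorem bounded_T0 : Bornology.IsBounded T0 :=
  isBounded_iff_forall_norm_le.2 ⟨3, fun _ h => norm_le_of_T0 h⟩

/-- A point well inside the triangle. -/
noncomputable def g0 : ℂ := ⟨1 / 2, 1 / 3⟩

theorem g0_mem : g0 ∈ O0 := by
  refine ⟨?_, ?_, ?_⟩ <;> simp [g0] <;> norm_num

theorem mem_O0_of_near {u : ℂ} (h : ‖u - g0‖ < 1 / 4) : u ∈ O0 := by
  have h1 := (Complex.abs_re_le_norm (u - g0)).trans_lt h
  have h2 := (Complex.abs_im_le_norm (u - g0)).trans_lt h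
  simp only [Complex.sub_re, Complex.sub_im, g0] at h1 h2
  rw [abs_lt] at h1 h2
  refine ⟨?_, ?_, ?_⟩ <;> linarith [h1.1, h1.2, h2.1, h2.2]

theorem T0_sub_closure : T0 ⊆ closure O0 := by
  intro v hv
  have hc : Continuous (fun t : ℝ => v + t • (g0 - v)) := by fun_prop
  have h0 : Filter.Tendsto (fun t : ℝ => v + t • (g0 - v)) (nhdsWithin 0 (Set.Ioi 0)) (nhds v) := by
    have := hc.tendsto 0
    simp only [zero_smul, add_zero] at this
    exact this.mono_left nhdsWithin_le_nhds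
  apply mem_closure_of_tendsto h0
  filter_upwards [Ioo_mem_nhdsGT (show (0 : ℝ) < 1 by norm_num)] with t ht
  obtain ⟨h1, h2, h3⟩ := hv
  obtain ⟨t1, t2⟩ := ht
  refine ⟨?_, ?_, ?_⟩ <;> simp [g0] <;> nlinarith

theorem exists_near {f : ℂ → ℂ} (hf : Continuous f) {U : Set ℂ} (hU : IsOpen U) {v : ℂ}
    (hv : v ∈ T0) (h : f v ∈ U) : ∃ w ∈ O0, f w ∈ U := by
  obtain ⟨w, h1, h2⟩ := mem_closure_iff.1 (T0_sub_closure hv) (f ⁻¹' U) (hU.preimage hf) h
  exact ⟨w, h2, h1⟩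

theorem interior_T0 : interior T0 ⊆ O0 := by
  intro z hz
  obtain ⟨ε, hε, hb⟩ := Metric.isOpen_iff.1 isOpen_interior z hz
  have key : ∀ d : ℂ, ‖d‖ ≤ 1 → z + (ε / 2 : ℝ) • d ∈ T0 := by
    intro d hd
    apply interior_subset (hb _)
    rw [mem_ball_iff_norm, add_sub_cancel_left, norm_smul, Real.norm_of_nonneg (by linarith)]
    nlinarith
  have h1 := (key (-1) (by simp)).1
  have h2 := (key (-Complex.I) (by simp)).2.1
  have h3 := (key 1 (by simp)).2.2
  simp at h1 h2 h3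
  refine ⟨?_, ?_, ?_⟩ <;> linarith

theorem isOpen_image {s : Aff ℝ} (h : s.Sim 1) : IsOpen (s.ev '' O0) :=
  h.iso.toHomeomorph.isOpenMap _ isOpen_O0

/-- The open triangle of `s` misses the closed triangle of `s'`. -/
def Dis (s s' : Aff ℝ) : Prop := ∀ u ∈ O0, ∀ v ∈ T0, s.ev u ≠ s'.ev v

theorem Dis.symm {s s' : Aff ℝ} (h' : s'.Sim 1) (h : Dis s s') : Dis s' s := by
  intro u hu v hv e
  obtain ⟨w, hw, w', hw', e'⟩ :=
    exists_near s.continuous_ev (isOpen_image h') hv (e ▸ Set.mem_image_of_mem _ hu)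
  exact h w hw w' (O0_sub hw') e'.symm

theorem Dis.ne {s s' : Aff ℝ} (h : Dis s s') : s ≠ s' := by
  rintro rfl
  exact h g0 g0_mem g0 (O0_sub g0_mem) rfl

theorem bary (g : Aff ℚ) (z : ℂ) :
    (g.cast.ev z).re = (1 - z.re / 2 - z.im) * ((g.pev (0, 0)).1 : ℚ) +
      z.re / 2 * ((g.pev (2, 0)).1 : ℚ) + z.im * ((g.pev (0, 1)).1 : ℚ) ∧
    (g.cast.ev z).im = (1 - z.re / 2 - z.im) * ((g.pev (0, 0)).2 : ℚ) +
      z.re / 2 * ((g.pev (2, 0)).2 : ℚ) + z.im * ((g.pev (0, 1)).2 : ℚ) := by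
  constructor <;> simp [Aff.cast, Aff.pev] <;> ring

theorem lin_le (g : Aff ℚ) (a b c : ℚ) (h : ∀ v ∈ verts, a * (g.pev v).1 + b * (g.pev v).2 ≤ c)
    {z : ℂ} (hz : z ∈ T0) : a * (g.cast.ev z).re + b * (g.cast.ev z).im ≤ c := by
  obtain ⟨h1, h2, h3⟩ := hz
  have e0 : ((a * (g.pev (0, 0)).1 + b * (g.pev (0, 0)).2 : ℚ) : ℝ) ≤ c := by
    exact_mod_cast h _ (by simp [verts])
  have e1 : ((a * (g.pev (2, 0)).1 + b * (g.pev (2, 0)).2 : ℚ) : ℝ) ≤ c := by
    exact_mod_cast h _ (by simp [verts])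
  have e2 : ((a * (g.pev (0, 1)).1 + b * (g.pev (0, 1)).2 : ℚ) : ℝ) ≤ c := by
    exact_mod_cast h _ (by simp [verts])
  push_cast at e0 e1 e2
  rw [(bary g z).1, (bary g z).2]
  have l0 : 0 ≤ 1 - z.re / 2 - z.im := by linarith
  have l1 : 0 ≤ z.re / 2 := by linarith
  nlinarith [mul_le_mul_of_nonneg_left e0 l0, mul_le_mul_of_nonneg_left e1 l1,
    mul_le_mul_of_nonneg_left e2 h2]

theorem Sep.not_mem {g : Aff ℚ} (h : Sep g) {z : ℂ} (hz : z ∈ T0) : g.cast.ev z ∉ O0 := by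
  rintro ⟨h1, h2, h3⟩
  rcases h with h | h | h
  · have := lin_le g 1 0 0 (fun v hv => by simpa using h v hv) hz
    push_cast at this; linarith
  · have := lin_le g 0 1 0 (fun v hv => by simpa using h v hv) hz
    push_cast at this; linarith
  · have := lin_le g (-1) (-2) (-2) (fun v hv => by linarith [h v hv]) hz
    push_cast at this; linarith

theorem AllIn.mem {g : Aff ℚ} (h : AllIn g) {z : ℂ} (hz : z ∈ T0) : g.cast.ev z ∈ T0 := by
  have h1 := lin_le g (-1) 0 0 (fun v hv => by linarith [(h v hv).1]) hz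
  have h2 := lin_le g 0 (-1) 0 (fun v hv => by linarith [(h v hv).2.1]) hz
  have h3 := lin_le g 1 2 2 (fun v hv => by linarith [(h v hv).2.2]) hz
  push_cast at h1 h2 h3
  exact ⟨by linarith, by linarith, by linarith⟩

theorem rect_sub {z : ℂ} (h1 : 0 ≤ z.re) (h2 : 0 ≤ z.im) (h3 : z.re ≤ 2) (h4 : z.im ≤ 1) :
    z ∈ T0 ∨ ∃ v ∈ T0, z = (tau true).cast.ev v := by
  by_cases h : z.re + 2 * z.im ≤ 2
  · exact Or.inl ⟨h1, h2, h⟩
  · refine Or.inr ⟨⟨2 - z.re, 1 - z.im⟩, ⟨?_, ?_, ?_⟩, ?_⟩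
    · simp only; linarith
    · simp only; linarith
    · simp only; linarith
    · apply Complex.ext <;> simp [tau, rho, Aff.cast]

theorem alpha_mem (k : Bool) (j : Fin 10) {z : ℂ} (hz : z ∈ T0) :
    (alpha k j).cast.ev z ∈ T0 ∨ ∃ v ∈ T0, (alpha k j).cast.ev z = (tau k).cast.ev v := by
  rcases alpha_sub k j with h | h | ⟨rfl, h⟩
  · exact Or.inl (h.mem hz)
  · refine Or.inr ⟨_, h.mem hz, ?_⟩
    rw [← ev_comp, ← cast_comp, ← Aff.comp_assoc, tau_tau, cast_comp, ev_comp, cast_one, ev_one]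
  · have h1 := lin_le _ (-1) 0 0 (fun v hv => by linarith [(h v hv).1]) hz
    have h2 := lin_le _ 0 (-1) 0 (fun v hv => by linarith [(h v hv).2.1]) hz
    have h3 := lin_le _ 1 0 2 (fun v hv => by linarith [(h v hv).2.2.1]) hz
    have h4 := lin_le _ 0 1 1 (fun v hv => by linarith [(h v hv).2.2.2]) hz
    push_cast at h1 h2 h3 h4
    exact rect_sub (by linarith) (by linarith) (by linarith) (by linarith)

theorem cover_upper (k : Bool) (X Y : ℝ) (h1 : 0 ≤ Y) (h2 : Y ≤ 2 * X) (h3 : X + 2 * Y ≤ 5) :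
    ∃ j, ∃ u ∈ T0, (beta k j).cast.ev u = ⟨X, Y⟩ := by
  by_cases c1 : X ≤ 1
  · refine ⟨0, ⟨Y, 1 - X⟩, ⟨?_, ?_, ?_⟩, ?_⟩
    iterate 3 (simp only; linarith)
    cases k <;> apply Complex.ext <;> simp [beta, Aff.cast]
  by_cases c2 : 1 ≤ Y
  · refine ⟨1, ⟨X - 1, Y - 1⟩, ⟨?_, ?_, ?_⟩, ?_⟩
    iterate 3 (simp only; linarith)
    cases k <;> apply Complex.ext <;> simp [beta, Aff.cast]
  by_cases c3 : 3 ≤ X
  · refine ⟨2, ⟨X - 3, Y⟩, ⟨?_, ?_, ?_⟩, ?_⟩
    iterate 3 (simp only; linarith)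
    cases k <;> apply Complex.ext <;> simp [beta, Aff.cast]
  by_cases c4 : X + 2 * Y ≤ 3
  · refine ⟨3, ⟨X - 1, Y⟩, ⟨?_, ?_, ?_⟩, ?_⟩
    iterate 3 (simp only; linarith)
    cases k <;> apply Complex.ext <;> simp [beta, Aff.cast]
  · refine ⟨4, ⟨3 - X, 1 - Y⟩, ⟨?_, ?_, ?_⟩, ?_⟩
    iterate 3 (simp only; linarith)
    cases k <;> apply Complex.ext <;> simp [beta, Aff.cast]

theorem cover_lower_kite (X Y : ℝ) (h1 : Y ≤ 0) (h2 : -Y ≤ 2 * X) (h3 : X - 2 * Y ≤ 5) :
    ∃ j, ∃ u ∈ T0, (beta false j).cast.ev u = ⟨X, Y⟩ := by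
  by_cases c1 : X ≤ 1
  · refine ⟨5, ⟨-Y, 1 - X⟩, ⟨?_, ?_, ?_⟩, ?_⟩
    iterate 3 (simp only; linarith)
    apply Complex.ext <;> simp [beta, Aff.cast]
  by_cases c2 : Y ≤ -1
  · refine ⟨6, ⟨X - 1, -1 - Y⟩, ⟨?_, ?_, ?_⟩, ?_⟩
    iterate 3 (simp only; linarith)
    apply Complex.ext <;> simp [beta, Aff.cast]
  by_cases c3 : 3 ≤ X
  · refine ⟨7, ⟨X - 3, -Y⟩, ⟨?_, ?_, ?_⟩, ?_⟩
    iterate 3 (simp only; linarith)
    apply Complex.ext <;> simp [beta, Aff.cast]
  by_cases c4 : 1 ≤ X + 2 * Y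
  · refine ⟨8, ⟨3 - X, -Y⟩, ⟨?_, ?_, ?_⟩, ?_⟩
    iterate 3 (simp only; linarith)
    apply Complex.ext <;> simp [beta, Aff.cast]
  · refine ⟨9, ⟨X - 1, Y + 1⟩, ⟨?_, ?_, ?_⟩, ?_⟩
    iterate 3 (simp only; linarith)
    apply Complex.ext <;> simp [beta, Aff.cast]

theorem cover_lower_dom (X Y : ℝ) (h1 : Y ≤ 0) (h2 : -Y ≤ 2 * (5 - X)) (h3 : -X - 2 * Y ≤ 0) :
    ∃ j, ∃ u ∈ T0, (beta true j).cast.ev u = ⟨X, Y⟩ := by
  by_cases c1 : 4 ≤ X
  · refine ⟨5, ⟨-Y, X - 4⟩, ⟨?_, ?_, ?_⟩, ?_⟩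
    iterate 3 (simp only; linarith)
    apply Complex.ext <;> simp [beta, Aff.cast]
  by_cases c2 : Y ≤ -1
  · refine ⟨6, ⟨4 - X, -1 - Y⟩, ⟨?_, ?_, ?_⟩, ?_⟩
    iterate 3 (simp only; linarith)
    apply Complex.ext <;> simp [beta, Aff.cast]
  by_cases c3 : X ≤ 2
  · refine ⟨7, ⟨2 - X, -Y⟩, ⟨?_, ?_, ?_⟩, ?_⟩
    iterate 3 (simp only; linarith)
    apply Complex.ext <;> simp [beta, Aff.cast]
  by_cases c4 : X - 2 * Y ≤ 4
  · refine ⟨8, ⟨X - 2, -Y⟩, ⟨?_, ?_, ?_⟩, ?_⟩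
    iterate 3 (simp only; linarith)
    apply Complex.ext <;> simp [beta, Aff.cast]
  · refine ⟨9, ⟨4 - X, Y + 1⟩, ⟨?_, ?_, ?_⟩, ?_⟩
    iterate 3 (simp only; linarith)
    apply Complex.ext <;> simp [beta, Aff.cast]

theorem cover_of_small (k : Bool) (z : ℂ) (X Y : ℝ) (hz : (Theta k).cast.ev ⟨X, Y⟩ = z)
    (h : ∃ j, ∃ u ∈ T0, (beta k j).cast.ev u = ⟨X, Y⟩) :
    ∃ j, ∃ u ∈ T0, (alpha k j).cast.ev u = z := by
  obtain ⟨j, u, hu, e⟩ := h
  exact ⟨j, u, hu, by rw [alpha, cast_comp, ev_comp, e, hz]⟩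

theorem cover_rect {z : ℂ} (h1 : 0 ≤ z.re) (h2 : 0 ≤ z.im) (h3 : z.re ≤ 2) (h4 : z.im ≤ 1) :
    ∃ j, ∃ u ∈ T0, (alpha true j).cast.ev u = z := by
  apply cover_of_small true z (2 * (2 - z.re) - z.im + 1) (-(2 - z.re) - 2 * z.im + 2)
  · apply Complex.ext <;> simp [Theta, theta, phi, Aff.comp, Aff.cast] <;> ring
  · by_cases c : (2 - z.re) + 2 * z.im ≤ 2
    · exact cover_upper _ _ _ (by linarith) (by linarith) (by linarith)
    · exact cover_lower_dom _ _ (by linarith) (by linarith) (by linarith)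

theorem cover_pair (k h : Bool) {v : ℂ} (hv : v ∈ T0) :
    ∃ j, ∃ u ∈ T0, (alpha k j).cast.ev u = (half k h).cast.ev v := by
  obtain ⟨h1, h2, h3⟩ := hv
  cases k <;> cases h
  · apply cover_of_small false _ (2 * v.re - v.im + 1) (-v.re - 2 * v.im + 2)
    · apply Complex.ext <;> simp [Theta, theta, half, Aff.one, Aff.cast] <;> ring
    · exact cover_upper _ _ _ (by linarith) (by linarith) (by linarith)
  · apply cover_of_small false _ (2 * v.re - v.im + 1) (-(-v.re - 2 * v.im + 2))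
    · apply Complex.ext <;> simp [Theta, theta, half, tau, kap, Aff.cast] <;> ring
    · exact cover_lower_kite _ _ (by linarith) (by linarith) (by linarith)
  · apply cover_rect <;> simp [half, Aff.one, Aff.cast] <;> linarith
  · apply cover_rect <;> simp [half, tau, rho, Aff.cast] <;> linarith

theorem overlap : ∃ u ∈ O0, ∃ v ∈ T0, (tau false).cast.ev u = (tau true).cast.ev v := by
  refine ⟨⟨1, 1 / 4⟩, ⟨?_, ?_, ?_⟩, ⟨4 / 5, 7 / 20⟩, ⟨?_, ?_, ?_⟩, ?_⟩
  iterate 6 norm_num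
  apply Complex.ext <;> simp [tau, kap, rho, Aff.cast] <;> norm_num

end Pool.Agent.MP_55cbcc_co

end

section

/-! The fixed point of the substitution is a tiling. -/

namespace Pool.Agent.MP_55cbcc_co

open Aff

/-- The partner across the hypotenuse. -/
def partner (k : Bool) (s : Aff ℝ) : Aff ℝ := s.comp (tau k).cast

/-- Inflate and place a small triangle. -/
def place (s : Aff ℝ) (a : Aff ℚ) : Aff ℝ := infl.cast.comp (s.comp a.cast)

/-- Lexicographic order on the right-angle corners. -/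
def Lt (s s' : Aff ℝ) : Prop := s.c1 < s'.c1 ∨ (s.c1 = s'.c1 ∧ s.c2 < s'.c2)

/-- An ordered pair in a set of tiles. -/
def Fam (K : Set (Aff ℝ)) (k : Bool) (s : Aff ℝ) : Prop :=
  s ∈ K ∧ partner k s ∈ K ∧ Lt s (partner k s)

/-- The patches. -/
def KK : ℕ → Set (Aff ℝ)
  | 0 => {t | ∃ j, t = place dz.cast (alpha true j)}
  | n + 1 => {t | ∃ k s j, Fam (KK n) k s ∧ t = place s (alpha k j)}

/-- The tiling. -/
def TT : Set (Aff ℝ) := ⋃ n, KK n

theorem partner_partner (k : Bool) (s : Aff ℝ) : partner k (partner k s) = s := by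
  rw [partner, partner, Aff.comp_assoc, ← cast_comp, tau_tau, cast_one, comp_one]

theorem place_comp (s : Aff ℝ) (a b : Aff ℚ) : (place s a).comp b.cast = place s (a.comp b) := by
  simp only [place, cast_comp, Aff.comp_assoc]

theorem place_comp' (s : Aff ℝ) (a b : Aff ℚ) : place (s.comp a.cast) b = place s (a.comp b) := by
  simp only [place, cast_comp, Aff.comp_assoc]

theorem place_ev (s : Aff ℝ) (a : Aff ℚ) (z : ℂ) :
    (place s a).ev z = infl.cast.ev (s.ev (a.cast.ev z)) := by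
  simp only [place, ev_comp]

theorem partner_sim {k : Bool} {s : Aff ℝ} (h : s.Sim 1) : (partner k s).Sim 1 := by
  have := h.comp (tau_sim k).cast
  simpa [partner] using this

theorem place_sim {s : Aff ℝ} (h : s.Sim 1) (k : Bool) (j : Fin 10) :
    (place s (alpha k j)).Sim 1 := by
  have := infl_sim.cast.comp (h.comp (alpha_sim k j).cast)
  norm_num at this
  exact this

theorem dz_sim' : dz.cast.Sim 1 := by simpa using dz_sim.cast

theorem infl_inj : Function.Injective infl.cast.ev := infl_sim.cast.injective (by norm_num)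

theorem place_dz3 : place dz.cast (alpha true 3) = dz.cast := by
  rw [place, ← cast_comp, ← cast_comp, dz_child3]

theorem place_dz4 : place dz.cast (alpha true 4) = partner true dz.cast := by
  rw [place, ← cast_comp, ← cast_comp, dz_child4, partner, cast_comp]

theorem fam_dz : Fam (KK 0) true dz.cast :=
  ⟨⟨3, place_dz3.symm⟩, ⟨4, place_dz4.symm⟩, Or.inl (by
    simp [partner, Aff.comp, Aff.cast, dz, tau, rho])⟩

theorem Fam.mono {K K' : Set (Aff ℝ)} (h : K ⊆ K') {k : Bool} {s : Aff ℝ} (hf : Fam K k s) :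
    Fam K' k s := ⟨h hf.1, h hf.2.1, hf.2.2⟩

theorem KK_succ (n : ℕ) : KK n ⊆ KK (n + 1) := by
  induction n with
  | zero => rintro t ⟨j, rfl⟩; exact ⟨true, _, j, fam_dz, rfl⟩
  | succ n ih => rintro t ⟨k, s, j, hf, rfl⟩; exact ⟨k, s, j, hf.mono ih, rfl⟩

theorem KK_mono : Monotone KK := monotone_nat_of_le_succ KK_succ

theorem KK_sub (n : ℕ) : KK n ⊆ TT := Set.subset_iUnion KK n

theorem KK_sim (n : ℕ) : ∀ s ∈ KK n, s.Sim 1 := by
  induction n with
  | zero => rintro t ⟨j, rfl⟩; exact place_sim dz_sim' _ _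
  | succ n ih => rintro t ⟨k, s, j, hf, rfl⟩; exact place_sim (ih s hf.1) _ _

theorem TT_sim {s : Aff ℝ} (h : s ∈ TT) : s.Sim 1 := by
  obtain ⟨n, hn⟩ := Set.mem_iUnion.1 h
  exact KK_sim n s hn

theorem exists_KK2 {s s' : Aff ℝ} (h : s ∈ TT) (h' : s' ∈ TT) : ∃ n, s ∈ KK n ∧ s' ∈ KK n := by
  obtain ⟨n, hn⟩ := Set.mem_iUnion.1 h
  obtain ⟨m, hm⟩ := Set.mem_iUnion.1 h'
  exact ⟨max n m, KK_mono (le_max_left _ _) hn, KK_mono (le_max_right _ _) hm⟩

theorem Fam.child_mem {k : Bool} {s : Aff ℝ} (h : Fam TT k s) (j : Fin 10) :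
    place s (alpha k j) ∈ TT := by
  obtain ⟨n, h1, h2⟩ := exists_KK2 h.1 h.2.1
  exact KK_sub (n + 1) ⟨k, s, j, ⟨h1, h2, h.2.2⟩, rfl⟩

theorem exists_parent {t : Aff ℝ} (h : t ∈ TT) :
    ∃ k s j, Fam TT k s ∧ t = place s (alpha k j) := by
  obtain ⟨n, hn⟩ := Set.mem_iUnion.1 h
  obtain ⟨k, s, j, hf, e⟩ := KK_succ n hn
  exact ⟨k, s, j, hf.mono (KK_sub n), e⟩

theorem KK_finite (n : ℕ) : (KK n).Finite := by
  induction n with
  | zero =>
    exact (Set.finite_range (fun j => place dz.cast (alpha true j))).subset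
      (by rintro t ⟨j, rfl⟩; exact ⟨j, rfl⟩)
  | succ n ih =>
    have : ((fun a : Aff ℝ × Bool × Fin 10 => place a.1 (alpha a.2.1 a.2.2)) ''
        (KK n ×ˢ Set.univ)).Finite := (ih.prod Set.finite_univ).image _
    refine this.subset ?_
    rintro t ⟨k, s, j, hf, rfl⟩
    exact ⟨(s, k, j), ⟨hf.1, Set.mem_univ _⟩, rfl⟩

theorem TT_countable : TT.Countable := Set.countable_iUnion fun n => (KK_finite n).countable

theorem Lt.asymm {s s' : Aff ℝ} (h : Lt s s') (h' : Lt s' s) : False := by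
  rcases h with h | ⟨h1, h2⟩ <;> rcases h' with h' | ⟨h3, h4⟩ <;> linarith

theorem partner_ev (k : Bool) (s : Aff ℝ) (z : ℂ) :
    (partner k s).ev z = s.ev ((tau k).cast.ev z) := ev_comp _ _ _

theorem lt_or_gt {s : Aff ℝ} (h : s.Sim 1) (k : Bool) : Lt s (partner k s) ∨ Lt (partner k s) s := by
  by_contra hc
  simp only [Lt, not_or, not_and, not_lt] at hc
  obtain ⟨⟨h1, h2⟩, h3, h4⟩ := hc
  have e1 : s.c1 = (partner k s).c1 := le_antisymm h3 h1
  have e2 : s.c2 = (partner k s).c2 := le_antisymm (h4 e1.symm) (h2 e1)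
  have e : s.ev 0 = (partner k s).ev 0 := by
    apply Complex.ext <;> simp [e1, e2]
  rw [partner_ev] at e
  have := congrArg Complex.re (h.injective one_ne_zero e)
  cases k
  · simp [tau, kap, Aff.cast] at this
    norm_num at this
  · simp [tau, rho, Aff.cast] at this

theorem partner_ne {s : Aff ℝ} (h : s.Sim 1) (k : Bool) : partner k s ≠ s := by
  intro e
  rcases lt_or_gt h k with h1 | h1 <;> rw [e] at h1 <;> exact h1.asymm h1

theorem exists_fam {K : Set (Aff ℝ)} {k : Bool} {s : Aff ℝ} (hs : s.Sim 1) (h1 : s ∈ K)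
    (h2 : partner k s ∈ K) : ∃ s0 h, Fam K k s0 ∧ s = s0.comp (half k h).cast := by
  rcases lt_or_gt hs k with h | h
  · exact ⟨s, false, ⟨h1, h2, h⟩, by simp [half]⟩
  · refine ⟨partner k s, true, ⟨h2, by rwa [partner_partner], by rwa [partner_partner]⟩, ?_⟩
    exact (partner_partner k s).symm

theorem Fam.half_mem {K : Set (Aff ℝ)} {k : Bool} {s : Aff ℝ} (hf : Fam K k s) (h : Bool) :
    s.comp (half k h).cast ∈ K := by
  cases h
  · simpa [half] using hf.1
  · exact hf.2.1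

theorem sibling_dis {s : Aff ℝ} (hs : s.Sim 1) (k : Bool) {j j' : Fin 10} (h : j ≠ j') :
    Dis (place s (alpha k j)) (place s (alpha k j')) := by
  have key : ∀ {j j' : Fin 10}, Sep (((alpha k j).sinv 5).comp (alpha k j')) →
      Dis (place s (alpha k j)) (place s (alpha k j')) := by
    intro j j' hsep u hu v hv e
    rw [place_ev, place_ev] at e
    have e2 := hs.injective one_ne_zero (infl_inj e)
    apply hsep.not_mem hv
    rw [cast_comp, ev_comp, ← e2, ← ev_comp, ← cast_comp, sinv_alpha, cast_one, ev_one]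
    exact hu
  rcases alpha_sep k j j' h with h1 | h1
  · exact key h1
  · exact (key h1).symm (place_sim hs _ _)

theorem partner_unique {K : Set (Aff ℝ)} (hK : ∀ s ∈ K, ∀ s' ∈ K, s ≠ s' → Dis s s')
    {s : Aff ℝ} (hs : s.Sim 1) {k k' : Bool} (h : partner k s ∈ K) (h' : partner k' s ∈ K) :
    k = k' := by
  have key : partner false s ∈ K → partner true s ∈ K → False := by
    intro h1 h2
    obtain ⟨u, hu, v, hv, e⟩ := overlap
    have hne : partner false s ≠ partner true s := by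
      intro e'
      have e3 : (partner false s).ev 0 = (partner true s).ev 0 := by rw [e']
      rw [partner_ev, partner_ev] at e3
      have := congrArg Complex.re (hs.injective one_ne_zero e3)
      simp [tau, kap, rho, Aff.cast] at this
      norm_num at this
    exact hK _ h1 _ h2 hne u hu v hv (by rw [partner_ev, partner_ev, e])
  cases k <;> cases k'
  · rfl
  · exact (key h h').elim
  · exact (key h' h).elim
  · rfl

theorem fam_unique {K : Set (Aff ℝ)} (hK : ∀ s ∈ K, ∀ s' ∈ K, s ≠ s' → Dis s s')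
    (hsim : ∀ s ∈ K, s.Sim 1) {k k' : Bool} {s s' : Aff ℝ} (hf : Fam K k s) (hf' : Fam K k' s')
    {h h' : Bool} (e : s.comp (half k h).cast = s'.comp (half k' h').cast) : k = k' ∧ s = s' := by
  cases h <;> cases h'
  · simp only [half, cast_one, comp_one] at e
    subst e
    exact ⟨partner_unique hK (hsim _ hf.1) hf.2.1 hf'.2.1, rfl⟩
  · simp only [half, cast_one, comp_one] at e
    change s = partner k' s' at e
    have e2 : partner k' s = s' := by rw [e, partner_partner]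
    have hk : k = k' := partner_unique hK (hsim _ hf.1) hf.2.1 (e2 ▸ hf'.1)
    subst hk
    have h1 := hf.2.2
    have h2 := hf'.2.2
    rw [e2] at h1
    rw [← e] at h2
    exact (h1.asymm h2).elim
  · simp only [half, cast_one, comp_one] at e
    change partner k s = s' at e
    have e2 : partner k s' = s := by rw [← e, partner_partner]
    have hk : k = k' := partner_unique hK (hsim _ hf'.1) (e2 ▸ hf.1) hf'.2.1
    subst hk
    have h1 := hf.2.2
    have h2 := hf'.2.2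
    rw [e] at h1
    rw [e2] at h2
    exact (h1.asymm h2).elim
  · change partner k s = partner k' s' at e
    have hk : k = k' := partner_unique hK (hsim _ hf.2.1) (by rw [partner_partner]; exact hf.1)
      (by rw [e, partner_partner]; exact hf'.1)
    subst hk
    exact ⟨rfl, by rw [← partner_partner k s, e, partner_partner]⟩

theorem child_sub (k : Bool) (s : Aff ℝ) (j : Fin 10) {z : ℂ} (hz : z ∈ T0) :
    ∃ h, ∃ v ∈ T0, (place s (alpha k j)).ev z = infl.cast.ev ((s.comp (half k h).cast).ev v) := by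
  rcases alpha_mem k j hz with h | ⟨v, hv, e⟩
  · exact ⟨false, _, h, by simp [place_ev, half]⟩
  · exact ⟨true, v, hv, by rw [place_ev, e, ev_comp]; rfl⟩

theorem KK_dis (n : ℕ) : ∀ s ∈ KK n, ∀ s' ∈ KK n, s ≠ s' → Dis s s' := by
  induction n with
  | zero =>
    rintro t ⟨j, rfl⟩ t' ⟨j', rfl⟩ hne
    exact sibling_dis dz_sim' _ (fun e => hne (by rw [e]))
  | succ n ih =>
    rintro t ⟨k, s, j, hf, rfl⟩ t' ⟨k', s', j', hf', rfl⟩ hne
    by_cases hc : k = k' ∧ s = s'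
    · obtain ⟨rfl, rfl⟩ := hc
      exact sibling_dis (KK_sim n _ hf.1) _ (fun e => hne (by rw [e]))
    · intro u hu v hv e
      obtain ⟨h', v', hv', e'⟩ := child_sub k' s' j' hv
      obtain ⟨w, hw, u', hu', e2⟩ := exists_near
        (f := fun z => infl.cast.ev ((s'.comp (half k' h').cast).ev z))
        (infl.cast.continuous_ev.comp (Aff.continuous_ev _))
        (isOpen_image (place_sim (KK_sim n _ hf.1) k j)) hv' ⟨u, hu, by rw [e, e']⟩
      obtain ⟨h, v2, hv2, e3⟩ := child_sub k s j (O0_sub hu')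
      rw [e3] at e2
      have hne2 : s'.comp (half k' h').cast ≠ s.comp (half k h).cast :=
        fun e4 => hc (fam_unique ih (KK_sim n) hf hf' e4.symm)
      exact ih _ (hf'.half_mem h') _ (hf.half_mem h) hne2 w hw v2 hv2 (infl_inj e2).symm

theorem TT_dis {s s' : Aff ℝ} (h : s ∈ TT) (h' : s' ∈ TT) (hne : s ≠ s') : Dis s s' := by
  obtain ⟨n, h1, h2⟩ := exists_KK2 h h'
  exact KK_dis n s h1 s' h2 hne

/-- The tile has a partner across its hypotenuse. -/
def Matched (s : Aff ℝ) : Prop := ∃ k, partner k s ∈ TT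

theorem edge_tile {s : Aff ℝ} (hs : s ∈ TT) (hm : Matched s) (e : Fin 3) :
    ∃ p, place s (etaP e p) ∈ TT := by
  obtain ⟨k, hk⟩ := hm
  obtain ⟨s0, h, hf, rfl⟩ := exists_fam (TT_sim hs) hs hk
  obtain ⟨j, p, e1⟩ := edge_child k h e
  exact ⟨p, by rw [place_comp', ← e1]; exact hf.child_mem j⟩

theorem matched_step {s1 s3 : Aff ℝ} (h3 : s3 ∈ TT) (hm : Matched s3) {e e' : Fin 3} {k' : Bool}
    (hadj : s3.comp (eta e').cast = s1.comp ((eta e).comp (tau k')).cast) (p : Bool) :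
    Matched (place s1 (etaP e p)) := by
  obtain ⟨p', hp'⟩ := edge_tile h3 hm e'
  have e1 : place s3 (eta e') = place s1 ((eta e).comp (tau k')) := by rw [place, hadj, place]
  have e2 : ∃ k2, place s1 ((eta e).comp (tau k2)) ∈ TT := by
    cases p'
    · exact ⟨k', e1 ▸ hp'⟩
    · refine ⟨!k', ?_⟩
      simp only [etaP] at hp'
      rwa [← place_comp, e1, place_comp, Aff.comp_assoc, tau_mu] at hp'
  obtain ⟨k2, hk2⟩ := e2
  cases p
  · exact ⟨k2, by rwa [partner, place_comp]⟩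
  · refine ⟨!k2, ?_⟩
    rw [partner, place_comp]
    simp only [etaP]
    rwa [Aff.comp_assoc, mu_tau, Bool.not_not]

theorem inner_matched {k : Bool} {s : Aff ℝ} (hf : Fam TT k s) {j j' : Fin 10}
    (e : (alpha k j).comp (tau true) = alpha k j') : Matched (place s (alpha k j)) :=
  ⟨true, by rw [partner, place_comp, e]; exact hf.child_mem j'⟩

theorem base_matched (r : ℕ) : ∀ j, rank j ≤ r → Matched (place dz.cast (alpha true j)) := by
  have hf : Fam TT true dz.cast := fam_dz.mono (KK_sub 0)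
  induction r with
  | zero =>
    intro j hj
    rcases base_chain j with ⟨j', e⟩ | ⟨h, e, p, j', e', k', -, hr, -⟩
    · exact inner_matched hf e
    · omega
  | succ r ih =>
    intro j hj
    rcases base_chain j with ⟨j', e⟩ | ⟨h, e, p, j', e', k', e1, hr, e2⟩
    · exact inner_matched hf e
    · rw [e1, ← place_comp']
      apply matched_step (hf.child_mem j') (ih j' (by omega)) (e := e) (e' := e') (k' := k')
      rw [place_comp, e2, Aff.comp_assoc, ← place_comp]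
      congr 1
      cases h
      · simp [place_dz3, half]
      · simp only [if_true, place_dz4]; rfl

theorem sibling_adj {k : Bool} {s : Aff ℝ} (j : Fin 10) (e : Fin 3) :
    ∃ j' e' k', j' ≠ j ∧ (place s (alpha k j')).comp (eta e').cast =
      (place s (alpha k j)).comp ((eta e).comp (tau k')).cast := by
  obtain ⟨j', e', k', h1, h2⟩ := sibling k j e
  exact ⟨j', e', k', h1, by rw [place_comp, place_comp, h2, Aff.comp_assoc]⟩

theorem KK_matched (n : ℕ) : ∀ s ∈ KK n, Matched s := by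
  induction n with
  | zero => rintro t ⟨j, rfl⟩; exact base_matched _ j le_rfl
  | succ n ih =>
    rintro t ⟨k, s, j, hf, rfl⟩
    rcases child_kind k j with ⟨j', e⟩ | ⟨h, e, p, e1⟩
    · exact inner_matched (hf.mono (KK_sub n)) e
    · rw [e1, ← place_comp']
      have h1 := hf.half_mem h
      have key : ∃ s3 ∈ KK n, ∃ e' k', s3.comp (eta e').cast =
          (s.comp (half k h).cast).comp ((eta e).comp (tau k')).cast := by
        generalize s.comp (half k h).cast = s1 at h1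
        cases n with
        | zero =>
          obtain ⟨i, rfl⟩ := h1
          obtain ⟨j', e', k', -, h2⟩ := sibling_adj (k := true) (s := dz.cast) i e
          exact ⟨_, ⟨j', rfl⟩, e', k', h2⟩
        | succ n =>
          obtain ⟨k0, s0, i, hf0, rfl⟩ := h1
          obtain ⟨j', e', k', -, h2⟩ := sibling_adj (k := k0) (s := s0) i e
          exact ⟨_, ⟨k0, s0, j', hf0, rfl⟩, e', k', h2⟩
      obtain ⟨s3, h3, e', k', h2⟩ := key
      exact matched_step (KK_sub n h3) (ih s3 h3) h2 p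

theorem TT_matched {s : Aff ℝ} (h : s ∈ TT) : Matched s := by
  obtain ⟨n, hn⟩ := Set.mem_iUnion.1 h
  exact KK_matched n s hn

theorem infl_ev (z : ℂ) : infl.cast.ev z = (-2 + Complex.I) * z := by
  apply Complex.ext <;> simp [infl, Aff.cast] <;> ring

theorem norm_infl (z : ℂ) : 11 / 5 * ‖z‖ ≤ ‖infl.cast.ev z‖ := by
  rw [infl_ev, norm_mul]
  gcongr
  have : ‖(-2 + Complex.I : ℂ)‖ ^ 2 = 5 := by
    rw [← Complex.normSq_eq_norm_sq, Complex.normSq_apply]; simp; norm_num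
  nlinarith [norm_nonneg (-2 + Complex.I : ℂ)]

theorem covered_infl {z : ℂ} (h : ∃ s ∈ TT, ∃ v ∈ T0, s.ev v = z) :
    ∃ s ∈ TT, ∃ v ∈ T0, s.ev v = infl.cast.ev z := by
  obtain ⟨s, hs, v, hv, rfl⟩ := h
  obtain ⟨k, hk⟩ := TT_matched hs
  obtain ⟨s0, h, hf, rfl⟩ := exists_fam (TT_sim hs) hs hk
  obtain ⟨j, u, hu, e⟩ := cover_pair k h hv
  exact ⟨_, hf.child_mem j, u, hu, by rw [place_ev, e, ev_comp]⟩

theorem covered_small {z : ℂ} (h : ‖z‖ ≤ 2 / 5) : ∃ s ∈ TT, ∃ v ∈ T0, s.ev v = z := by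
  have hf : Fam TT true dz.cast := fam_dz.mono (KK_sub 0)
  have h1 := abs_le.1 ((Complex.abs_re_le_norm z).trans h)
  have h2 := abs_le.1 ((Complex.abs_im_le_norm z).trans h)
  have e : dz.cast.ev ⟨z.re + 6 / 5, z.im + 2 / 5⟩ = z := by
    apply Complex.ext <;> simp [dz, Aff.cast] <;> ring
  rcases rect_sub (z := ⟨z.re + 6 / 5, z.im + 2 / 5⟩) (by simp only; linarith)
    (by simp only; linarith) (by simp only; linarith) (by simp only; linarith) with h3 | ⟨v, hv, h3⟩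
  · exact ⟨_, hf.1, _, h3, e⟩
  · exact ⟨_, hf.2.1, v, hv, by rw [partner_ev, ← h3, e]⟩

theorem covered (z : ℂ) : ∃ s ∈ TT, ∃ v ∈ T0, s.ev v = z := by
  have key : ∀ n : ℕ, ∀ z : ℂ, ‖z‖ ≤ 2 / 5 * 2 ^ n → ∃ s ∈ TT, ∃ v ∈ T0, s.ev v = z := by
    intro n
    induction n with
    | zero => intro z hz; exact covered_small (by simpa using hz)
    | succ n ih =>
      intro z hz
      have hl : (-2 + Complex.I : ℂ) ≠ 0 := by
        intro e; have := congrArg Complex.re e; simp at this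
      have e : infl.cast.ev (z / (-2 + Complex.I)) = z := by rw [infl_ev]; field_simp
      rw [← e]
      apply covered_infl
      apply ih
      have := norm_infl (z / (-2 + Complex.I))
      rw [e] at this
      rw [pow_succ] at hz
      nlinarith [norm_nonneg (z / (-2 + Complex.I))]
  obtain ⟨n, hn⟩ := pow_unbounded_of_one_lt (5 / 2 * ‖z‖) (show (1 : ℝ) < 2 by norm_num)
  exact key n z (by linarith)

theorem TT_locally_finite (r : ℝ) : {s ∈ TT | ‖s.ev g0‖ ≤ r}.Finite := by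
  obtain ⟨t, -, ht, hcov⟩ := finite_cover_balls_of_compact (isCompact_closedBall (0 : ℂ) r)
    (show (0 : ℝ) < 1 / 8 by norm_num)
  have : {s ∈ TT | ‖s.ev g0‖ ≤ r} ⊆ ⋃ y ∈ t, {s ∈ TT | s.ev g0 ∈ Metric.ball y (1 / 8)} := by
    rintro s ⟨h1, h2⟩
    have := hcov (mem_closedBall_zero_iff.2 h2)
    simp only [Set.mem_iUnion] at this ⊢
    obtain ⟨y, hy, h3⟩ := this
    exact ⟨y, hy, h1, h3⟩
  refine (ht.biUnion fun y _ => Set.Subsingleton.finite ?_).subset this
  rintro s ⟨h1, h2⟩ s' ⟨h3, h4⟩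
  by_contra hne
  obtain ⟨u, hu⟩ := (TT_sim h1).surjective (s'.ev g0)
  have h5 : ‖u - g0‖ < 1 / 4 := by
    rw [← (TT_sim h1).norm_sub, hu, ← dist_eq_norm]
    have := dist_triangle_right (s'.ev g0) (s.ev g0) y
    rw [Metric.mem_ball] at h2 h4
    linarith
  exact TT_dis h1 h3 hne u (mem_O0_of_near h5) g0 (O0_sub g0_mem) hu

end Pool.Agent.MP_55cbcc_co

end

section

/-! Marked points: each lies on exactly two tiles; the strands connect. -/

namespace Pool.Agent.MP_55cbcc_co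

open Aff Filter Topology

/-- A marked point of a tile. -/
def pt (s : Aff ℝ) (m : Fin 4) : ℂ := s.ev (cpt (mk m))

/-- Inner normals at the marked points. -/
def nrm : Fin 4 → ℝ × ℝ := ![(1, 0), (0, 1), (0, 1), (-1, -2)]

theorem ev_pos {a b : ℝ} (ha : 0 ≤ a) (h : 0 < a ∨ 0 < b) :
    ∀ᶠ ε in 𝓝[>] (0 : ℝ), 0 < a + ε * b := by
  rcases h with h | h
  · have hc : Continuous (fun ε : ℝ => a + ε * b) := by fun_prop
    have : ∀ᶠ ε in 𝓝 (0 : ℝ), 0 < a + ε * b :=
      hc.continuousAt.eventually (lt_mem_nhds (by simpa using h))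
    exact this.filter_mono nhdsWithin_le_nhds
  · filter_upwards [self_mem_nhdsWithin] with ε hε
    have : 0 < ε * b := mul_pos hε h
    linarith

theorem inward (m : Fin 4) (u : ℂ) (h : 0 < (nrm m).1 * u.re + (nrm m).2 * u.im) :
    ∀ᶠ ε in 𝓝[>] (0 : ℝ), cpt (mk m) + ε • u ∈ O0 := by
  have h1 : ∀ᶠ ε in 𝓝[>] (0 : ℝ), 0 < ((mk m).1 : ℝ) + ε * u.re := by
    apply ev_pos <;> fin_cases m <;> simp [mk, nrm] at h ⊢ <;> first | exact h | norm_num
  have h2 : ∀ᶠ ε in 𝓝[>] (0 : ℝ), 0 < ((mk m).2 : ℝ) + ε * u.im := by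
    apply ev_pos <;> fin_cases m <;> simp [mk, nrm] at h ⊢ <;> first | exact h | norm_num
  have h3 : ∀ᶠ ε in 𝓝[>] (0 : ℝ),
      0 < (2 - ((mk m).1 : ℝ) - 2 * ((mk m).2 : ℝ)) + ε * (-u.re - 2 * u.im) := by
    apply ev_pos <;> fin_cases m <;> simp [mk, nrm] at h ⊢ <;> first | linarith | (right; linarith) | norm_num
  filter_upwards [h1, h2, h3] with ε e1 e2 e3
  refine ⟨?_, ?_, ?_⟩ <;> simp <;> linarith

theorem half_disc {s : Aff ℝ} (hs : s.Sim 1) (m : Fin 4) :
    ∃ a b : ℝ, (a ≠ 0 ∨ b ≠ 0) ∧ ∀ v : ℂ, 0 < a * v.re + b * v.im →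
      ∀ᶠ ε in 𝓝[>] (0 : ℝ), ∃ u ∈ O0, s.ev u = pt s m + ε • v := by
  obtain ⟨h1, h2, h3⟩ := hs.rows
  obtain ⟨h4, h5, h6⟩ := hs
  refine ⟨s.a11 * (nrm m).1 + s.a12 * (nrm m).2, s.a21 * (nrm m).1 + s.a22 * (nrm m).2, ?_, ?_⟩
  · by_contra hc
    rw [not_or, not_not, not_not] at hc
    obtain ⟨e1, e2⟩ := hc
    have : (nrm m).1 ^ 2 + (nrm m).2 ^ 2 = 0 := by
      linear_combination (s.a11 * (nrm m).1 + s.a12 * (nrm m).2) * e1 +
        (s.a21 * (nrm m).1 + s.a22 * (nrm m).2) * e2 - (nrm m).1 ^ 2 * h4 - (nrm m).2 ^ 2 * h5 -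
        2 * (nrm m).1 * (nrm m).2 * h6
    fin_cases m <;> simp [nrm] at this
    norm_num at this
  · intro v hv
    have := inward m ⟨s.a11 * v.re + s.a21 * v.im, s.a12 * v.re + s.a22 * v.im⟩
      (by simp only; linarith)
    filter_upwards [this] with ε hε
    refine ⟨_, hε, ?_⟩
    apply Complex.ext <;> simp [pt]
    · linear_combination ε * v.re * h1 + ε * v.im * h3
    · linear_combination ε * v.im * h2 + ε * v.re * h3

theorem root_finite {a b : ℝ} (h : a ≠ 0 ∨ b ≠ 0) : {t : ℝ | a + b * t = 0}.Finite := by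
  apply Set.Subsingleton.finite
  intro t ht t' ht'
  simp only [Set.mem_ofPred_eq] at ht ht'
  by_cases hb : b = 0
  · rw [hb] at ht
    rcases h with h | h
    · exact (h (by linarith)).elim
    · exact (h hb).elim
  · exact mul_left_cancel₀ hb (by linarith)

theorem at_most_two {s1 s2 s3 : Aff ℝ} (h1 : s1 ∈ TT) (h2 : s2 ∈ TT) (h3 : s3 ∈ TT)
    {m1 m2 m3 : Fin 4} (e2 : pt s2 m2 = pt s1 m1) (e3 : pt s3 m3 = pt s1 m1) :
    s1 = s2 ∨ s1 = s3 ∨ s2 = s3 := by
  obtain ⟨a1, b1, n1, k1⟩ := half_disc (TT_sim h1) m1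
  obtain ⟨a2, b2, n2, k2⟩ := half_disc (TT_sim h2) m2
  obtain ⟨a3, b3, n3, k3⟩ := half_disc (TT_sim h3) m3
  rw [e2] at k2
  rw [e3] at k3
  have key : ∀ {s s' : Aff ℝ} {v : ℂ}, s ∈ TT → s' ∈ TT →
      (∀ᶠ ε in 𝓝[>] (0 : ℝ), ∃ u ∈ O0, s.ev u = pt s1 m1 + ε • v) →
      (∀ᶠ ε in 𝓝[>] (0 : ℝ), ∃ u ∈ O0, s'.ev u = pt s1 m1 + ε • v) → s = s' := by
    intro s s' v hs hs' f f'
    obtain ⟨ε, ⟨u, hu, e⟩, u', hu', e'⟩ := (f.and f').exists
    by_contra hne
    exact TT_dis hs hs' hne u hu u' (O0_sub hu') (e.trans e'.symm)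
  obtain ⟨t, ht⟩ := (((root_finite n1).union (root_finite n2)).union (root_finite n3)).exists_notMem
  simp only [Set.mem_union, Set.mem_ofPred_eq, not_or] at ht
  obtain ⟨⟨t1, t2⟩, t3⟩ := ht
  have p1 := k1 ⟨1, t⟩
  have p2 := k2 ⟨1, t⟩
  have p3 := k3 ⟨1, t⟩
  have q1 := k1 ⟨-1, -t⟩
  have q2 := k2 ⟨-1, -t⟩
  have q3 := k3 ⟨-1, -t⟩
  simp only at p1 p2 p3 q1 q2 q3
  rcases lt_or_gt_of_ne t1 with c1 | c1 <;> rcases lt_or_gt_of_ne t2 with c2 | c2 <;>
    rcases lt_or_gt_of_ne t3 with c3 | c3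
  · exact Or.inl (key h1 h2 (q1 (by linarith)) (q2 (by linarith)))
  · exact Or.inl (key h1 h2 (q1 (by linarith)) (q2 (by linarith)))
  · exact Or.inr (Or.inl (key h1 h3 (q1 (by linarith)) (q3 (by linarith))))
  · exact Or.inr (Or.inr (key h2 h3 (p2 (by linarith)) (p3 (by linarith))))
  · exact Or.inr (Or.inr (key h2 h3 (q2 (by linarith)) (q3 (by linarith))))
  · exact Or.inr (Or.inl (key h1 h3 (p1 (by linarith)) (p3 (by linarith))))
  · exact Or.inl (key h1 h2 (p1 (by linarith)) (p2 (by linarith)))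
  · exact Or.inl (key h1 h2 (p1 (by linarith)) (p2 (by linarith)))

theorem pt_inj {s : Aff ℝ} (hs : s ∈ TT) {m m' : Fin 4} (e : pt s m = pt s m') : m = m' :=
  mk_inj _ _ (cpt_inj ((TT_sim hs).injective one_ne_zero e))

theorem pt_comp (s : Aff ℝ) (a : Aff ℚ) (m : Fin 4) :
    pt (s.comp a.cast) m = s.ev (cpt (a.pev (mk m))) := by
  rw [pt, ev_comp, ev_cast_cpt]

theorem pt_partner (k : Bool) (s : Aff ℝ) : pt (partner k s) 3 = pt s 3 := by
  rw [partner, pt_comp, tau_mk, pt]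

theorem pev_comp (a b : Aff ℚ) (p : ℚ × ℚ) : (a.comp b).pev p = a.pev (b.pev p) := by
  simp only [Aff.pev, Aff.comp]; ext <;> simp only <;> ring

theorem other {s : Aff ℝ} (hs : s ∈ TT) (m : Fin 4) :
    ∃ s' ∈ TT, ∃ m', s' ≠ s ∧ pt s' m' = pt s m ∧
      ((m ≠ 3 ∧ m' ≠ 3) ∨ (m = 3 ∧ m' = 3 ∧ ∃ k, s' = partner k s)) := by
  induction m using Fin.lastCases with
  | last =>
    obtain ⟨k, hk⟩ := TT_matched hs
    exact ⟨_, hk, 3, partner_ne (TT_sim hs) k, pt_partner k s, Or.inr ⟨rfl, rfl, k, rfl⟩⟩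
  | cast e =>
    obtain ⟨k, s0, j, hf, rfl⟩ := exists_parent hs
    obtain ⟨j', e', k', hj, h⟩ := sibling_adj (k := k) (s := s0) j e
    refine ⟨_, hf.child_mem j', e'.castSucc, (sibling_dis (TT_sim hf.1) k hj).ne, ?_,
      Or.inl ⟨(Fin.castSucc_lt_last e).ne, (Fin.castSucc_lt_last e').ne⟩⟩
    have := congrArg (fun t => pt t 3) h
    simp only [pt_comp, pev_comp, tau_mk, eta_mk'] at this
    exact this

/-- The two ends of a marked arc. -/
def R (x y : ℂ) : Prop := ∃ s ∈ TT, ∃ m, x = pt s m ∧ y = pt s (opp m)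

/-- Joined by a chain of arcs. -/
def Conn : ℂ → ℂ → Prop := Relation.ReflTransGen R

theorem R.symm {x y : ℂ} (h : R x y) : R y x := by
  obtain ⟨s, hs, m, rfl, rfl⟩ := h
  exact ⟨s, hs, opp m, rfl, by rw [opp_opp]⟩

theorem Conn.refl (x : ℂ) : Conn x x := Relation.ReflTransGen.refl

theorem Conn.trans {x y z : ℂ} (h : Conn x y) (h' : Conn y z) : Conn x z :=
  Relation.ReflTransGen.trans h h'

theorem R.conn {x y : ℂ} (h : R x y) : Conn x y := Relation.ReflTransGen.single h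

theorem Conn.symm {x y : ℂ} (h : Conn x y) : Conn y x := by
  induction h with
  | refl => exact Conn.refl _
  | tail _ h2 ih => exact h2.symm.conn.trans ih

theorem pt_place (s : Aff ℝ) (a : Aff ℚ) (m : Fin 4) :
    pt (place s a) m = infl.cast.ev (s.ev (cpt (a.pev (mk m)))) := by
  rw [pt, place_ev, ev_cast_cpt]

theorem strand_conn {k : Bool} {s : Aff ℝ} (hf : Fam TT k s) (i : Fin 3) {p q : ℚ × ℚ}
    (hp : p ∈ strand k i) (hq : q ∈ strand k i) :
    Conn (infl.cast.ev (s.ev (cpt p))) (infl.cast.ev (s.ev (cpt q))) := by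
  let Q : ℚ × ℚ → ℚ × ℚ → Prop := fun p q =>
    Conn (infl.cast.ev (s.ev (cpt p))) (infl.cast.ev (s.ev (cpt q)))
  have h1 : List.IsChain Q (strand k i) := by
    refine (strand_chain k i).imp ?_
    rintro p q ⟨j, m, rfl, rfl⟩
    exact R.conn ⟨_, hf.child_mem j, m, (pt_place _ _ _).symm, (pt_place _ _ _).symm⟩
  have : Trans Q Q Q := ⟨fun h h' => Conn.trans h h'⟩
  have : Std.Symm Q := ⟨fun _ _ h => Conn.symm h⟩
  have h2 : List.Pairwise Q (strand k i) := List.isChain_iff_pairwise.1 h1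
  exact List.Pairwise.forall_of_forall (R := Q) (fun _ _ => Conn.refl _) h2 hp hq

/-- The leg point used for a marked point. -/
def low : Fin 4 → Fin 3 := ![0, 1, 2, 2]

/-- The lift of a marked point to the next level. -/
def lift (s : Aff ℝ) (m : Fin 4) : ℂ := infl.cast.ev (pt s (low m).castSucc)

theorem lift_partner {s : Aff ℝ} (hs : s ∈ TT) {k : Bool} (hk : partner k s ∈ TT) :
    Conn (lift s 3) (lift (partner k s) 3) := by
  obtain ⟨-, -, -, -, e1, e2⟩ := strand_ends k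
  have key : ∀ {s0}, Fam TT k s0 → Conn (lift s0 3) (lift (partner k s0) 3) := by
    intro s0 hf
    have := strand_conn hf 2 e1 e2
    rw [← pt_comp] at this
    exact this
  rcases lt_or_gt (TT_sim hs) k with h | h
  · exact key ⟨hs, hk, h⟩
  · have := key (s0 := partner k s)
      ⟨hk, by rwa [partner_partner], by rwa [partner_partner]⟩
    rw [partner_partner] at this
    exact this.symm

theorem low_of_ne {m : Fin 4} (h : m ≠ 3) : (low m).castSucc = m := by
  revert m; decide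

theorem lift_eq {s s' : Aff ℝ} (hs : s ∈ TT) (hs' : s' ∈ TT) {m m' : Fin 4}
    (e : pt s' m' = pt s m) : Conn (lift s m) (lift s' m') := by
  obtain ⟨s2, h2, m2, hne, e2, hc⟩ := other hs m
  rcases at_most_two hs hs' h2 e e2 with rfl | rfl | rfl
  · rw [pt_inj hs e]; exact Conn.refl _
  · exact (hne rfl).elim
  · obtain rfl : m' = m2 := pt_inj hs' (e.trans e2.symm)
    rcases hc with ⟨c1, c2⟩ | ⟨rfl, rfl, k, rfl⟩
    · rw [lift, lift, low_of_ne c1, low_of_ne c2, e]; exact Conn.refl _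
    · exact lift_partner hs hs'

theorem lift_opp {s : Aff ℝ} (hs : s ∈ TT) (m : Fin 4) : Conn (lift s m) (lift s (opp m)) := by
  have key : Conn (lift s 0) (lift s 1) := by
    obtain ⟨k, hk⟩ := TT_matched hs
    obtain ⟨e1, e2, e3, e4, -, -⟩ := strand_ends k
    obtain ⟨s0, h, hf, rfl⟩ := exists_fam (TT_sim hs) hs hk
    cases h
    · have := strand_conn hf 0 e1 e2
      simp only [half, cast_one, comp_one]
      exact this
    · have := strand_conn hf 1 e3 e4
      rw [← pt_comp, ← pt_comp] at this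
      exact this
  fin_cases m
  · exact key
  · exact key.symm
  · exact Conn.refl _
  · exact Conn.refl _

theorem lift_conn {s : Aff ℝ} (hs : s ∈ TT) (m : Fin 4) {y : ℂ} (h : Conn (pt s m) y) :
    ∀ s' ∈ TT, ∀ m', y = pt s' m' → Conn (lift s m) (lift s' m') := by
  induction h with
  | refl => intro s' hs' m' e; exact lift_eq hs hs' e.symm
  | tail _ h2 ih =>
    obtain ⟨t, ht, μ, rfl, rfl⟩ := h2
    intro s' hs' m' e
    exact ((ih t ht μ rfl).trans (lift_opp ht μ)).trans (lift_eq ht hs' e.symm)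

theorem lift_marked {s : Aff ℝ} (hs : s ∈ TT) (m : Fin 4) : ∃ t ∈ TT, lift s m = pt t 3 := by
  obtain ⟨p, hp⟩ := edge_tile hs (TT_matched hs) (low m)
  exact ⟨_, hp, by rw [pt_place, eta_mk]; rfl⟩

theorem norm_lift {s : Aff ℝ} (hs : s ∈ TT) (m : Fin 4) :
    11 / 5 * (‖pt s m‖ - 71 / 100) ≤ ‖lift s m‖ := by
  refine le_trans ?_ (norm_infl _)
  have h1 : ‖pt s m - pt s (low m).castSucc‖ ≤ 71 / 100 := by
    rw [pt, pt, (TT_sim hs).norm_sub]
    apply le_of_sq_le_sq _ (by norm_num)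
    rw [← Complex.normSq_eq_norm_sq, Complex.normSq_apply]
    fin_cases m <;> simp [low, mk] <;> norm_num
  have := norm_sub_norm_le (pt s m) (pt s (low m).castSucc)
  linarith

theorem child_conn {k : Bool} {s : Aff ℝ} (hf : Fam TT k s) (j : Fin 10) (m : Fin 4) :
    Conn (pt (place s (alpha k j)) m) (lift s 0) ∨
      Conn (pt (place s (alpha k j)) m) (lift (partner k s) 0) ∨
        Conn (pt (place s (alpha k j)) m) (lift (partner k s) 2) := by
  obtain ⟨i, hi⟩ := strand_all k j m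
  obtain ⟨e1, -, e3, -, -, e6⟩ := strand_ends k
  rw [pt_place]
  fin_cases i
  · exact Or.inl (strand_conn hf 0 hi e1)
  · refine Or.inr (Or.inl ?_)
    have := strand_conn hf 1 hi e3
    rw [← pt_comp _ (tau k)] at this
    exact this
  · refine Or.inr (Or.inr ?_)
    have := strand_conn hf 2 hi e6
    rw [← pt_comp _ (tau k)] at this
    exact this

theorem far (n : ℕ) : ∃ (w : Fin 3 → Aff ℝ), (∀ i, w i ∈ TT) ∧
    (∀ i, 17 / 10 + 2 / 5 * n ≤ ‖pt (w i) 3‖) ∧
      ∀ s ∈ KK n, ∀ m, ∃ i, Conn (pt s m) (pt (w i) 3) := by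
  induction n with
  | zero =>
    have hf : Fam TT true dz.cast := fam_dz.mono (KK_sub 0)
    obtain ⟨t0, h0, e0⟩ := lift_marked hf.1 0
    obtain ⟨t1, h1, e1⟩ := lift_marked hf.2.1 0
    obtain ⟨t2, h2, e2⟩ := lift_marked hf.2.1 2
    refine ⟨![t0, t1, t2], ?_, ?_, ?_⟩
    · intro i; fin_cases i <;> assumption
    · intro i
      fin_cases i
      · change _ ≤ ‖pt t0 3‖
        rw [← e0]
        refine le_trans ?_ (Complex.abs_re_le_norm _)
        simp [lift, pt, low, mk, infl, dz, Aff.cast]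
        norm_num
      · change _ ≤ ‖pt t1 3‖
        rw [← e1]
        refine le_trans ?_ (Complex.abs_re_le_norm _)
        simp [lift, pt, low, mk, infl, dz, Aff.cast, partner, Aff.comp, tau, rho]
        norm_num
      · change _ ≤ ‖pt t2 3‖
        rw [← e2]
        refine le_trans ?_ (Complex.abs_im_le_norm _)
        simp [lift, pt, low, mk, infl, dz, Aff.cast, partner, Aff.comp, tau, rho]
        norm_num
    · rintro s ⟨j, rfl⟩ m
      rcases child_conn hf j m with h | h | h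
      · exact ⟨0, by rw [e0] at h; exact h⟩
      · exact ⟨1, by rw [e1] at h; exact h⟩
      · exact ⟨2, by rw [e2] at h; exact h⟩
  | succ n ih =>
    obtain ⟨w, hw, hn, hc⟩ := ih
    choose t ht et using fun i => lift_marked (hw i) 3
    refine ⟨t, ht, ?_, ?_⟩
    · intro i
      rw [← et]
      have := norm_lift (hw i) 3
      have h2 := hn i
      have h3 : (0 : ℝ) ≤ n := Nat.cast_nonneg n
      push_cast
      linarith
    · rintro s ⟨k, s0, j, hf, rfl⟩ m
      have key : ∀ s1 ∈ KK n, ∀ μ, ∃ i, Conn (lift s1 μ) (pt (t i) 3) := by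
        intro s1 h1 μ
        obtain ⟨i, hi⟩ := hc s1 h1 μ
        exact ⟨i, by rw [← et]; exact lift_conn (KK_sub n h1) μ hi _ (hw i) 3 rfl⟩
      rcases child_conn (hf.mono (KK_sub n)) j m with h | h | h
      · obtain ⟨i, hi⟩ := key _ hf.1 0
        exact ⟨i, h.trans hi⟩
      · obtain ⟨i, hi⟩ := key _ hf.2.1 0
        exact ⟨i, h.trans hi⟩
      · obtain ⟨i, hi⟩ := key _ hf.2.1 2
        exact ⟨i, h.trans hi⟩

end Pool.Agent.MP_55cbcc_co

end
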